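import Mathlib

/-! Allocation of rows to columns. -/

set_option autoImplicit false

namespace Pool.Agent.Lib.MP_4a6af7_co.Deg

open Finset

variable {I C : Type} [Fintype I] [DecidableEq I] [Fintype C] [DecidableEq C]

/-- Number of rows sent to a column. -/
def load (φ : I → Option C) (i : C) : ℕ := (univ.filter fun j => φ j = some i).card

/-- Valid allocations of some rows of `J`. -/
def Val (J : Finset I) (a : I → C → ℕ) (c : C → ℕ) (φ : I → Option C) : Prop :=
  (∀ j, j ∉ J → φ j = none) ∧ (∀ j i, φ j = some i → load φ i ≤ a j i) ∧ ∀ i, load φ i ≤ c i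

/-- Rows with room to spare. -/
def strict (a : I → C → ℕ) (φ : I → Option C) : Finset I :=
  univ.filter fun j => ∃ i, φ j = some i ∧ load φ i < a j i

/-- The potential. -/
def pot (a : I → C → ℕ) (φ : I → Option C) : ℕ :=
  (∑ i, load φ i) * (Fintype.card I + 1) + (strict a φ).card

omit [DecidableEq I] [Fintype C] in
theorem load_comp (φ : I → Option C) {σ : I → I} (h : Function.Bijective σ) :
    load (φ ∘ σ) = load φ :=
  funext fun _ => card_bijective σ h fun j => by simp

theorem sum_load {φ : I → Option C} {S : Finset I} (h : ∀ j, j ∉ S → φ j = none) :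
    ∑ i, load φ i ≤ S.card := by
  unfold load
  rw [← card_biUnion]
  · refine card_le_card fun j hj => by_contra fun hn => ?_
    obtain ⟨i, -, hi⟩ := mem_biUnion.mp hj
    have := (mem_filter.mp hi).2
    simp [h j hn] at this
  · intro i _ i' _ hi
    refine disjoint_filter.mpr fun j _ h1 h2 => hi ?_
    exact Option.some_injective _ (h1.symm.trans h2)

theorem improve {J : Finset I} {a : I → C → ℕ} {c : C → ℕ} {φ : I → Option C} (h : Val J a c φ)
    {l : I} {i : C} (hl : l ∈ J) (h0 : φ l = none) (hi : load φ i < a l i)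
    (hT : ¬ (load φ i = c i ∧ ∀ j, φ j = some i → load φ i < a j i)) :
    ∃ φ', Val J a c φ' ∧ pot a φ < pot a φ' := by
  by_cases hs : ∀ j, φ j = some i → load φ i < a j i
  · have hc : load φ i < c i := lt_of_le_of_ne (h.2.2 i) fun e => hT ⟨e, hs⟩
    have e1 : load (Function.update φ l (some i)) i = load φ i + 1 := by
      unfold load
      rw [← card_insert_of_notMem (a := l) (by simp [h0])]
      congr 1
      ext j
      by_cases e : j = l <;> simp [e]
    have e2 : ∀ i', i' ≠ i → load (Function.update φ l (some i)) i' = load φ i' := fun i' hi' => by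
      unfold load
      congr 1
      ext j
      by_cases e : j = l <;> simp [e, h0, hi'.symm]
    refine ⟨Function.update φ l (some i), ⟨fun j hj => ?_, fun j i' hj => ?_, fun i' => ?_⟩, ?_⟩
    · rw [Function.update_of_ne fun e : j = l => hj (e ▸ hl), h.1 j hj]
    · by_cases e : j = l
      · subst e
        rw [Function.update_self] at hj
        obtain rfl := Option.some_injective _ hj
        omega
      rw [Function.update_of_ne e] at hj
      by_cases e' : i' = i
      · subst e'
        have := hs j hj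
        omega
      · rw [e2 i' e']
        exact h.2.1 j i' hj
    · by_cases e' : i' = i
      · subst e'
        omega
      · rw [e2 i' e']
        exact h.2.2 i'
    · have h1 : ∑ i', load φ i' < ∑ i', load (Function.update φ l (some i)) i' :=
        sum_lt_sum (fun i' _ => by
          by_cases e' : i' = i
          · subst e'
            omega
          · rw [e2 i' e']) ⟨i, mem_univ _, by omega⟩
      have h2 := card_le_univ (strict a φ)
      have h3 := Nat.mul_le_mul_right (Fintype.card I + 1) (Nat.succ_le_of_lt h1)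
      rw [Nat.succ_mul] at h3
      unfold pot
      omega
  · push Not at hs
    obtain ⟨j', j1, j2⟩ := hs
    have e := load_comp φ (Equiv.swap l j').bijective
    have hj' : j' ∈ J := by_contra fun hn => by simp [h.1 j' hn] at j1
    have e1 : ∀ j i', (φ ∘ Equiv.swap l j') j = some i' → (j = l ∧ i' = i) ∨ φ j = some i' := by
      intro j i' hj
      by_cases a1 : j = l
      · subst a1
        simp only [Function.comp, Equiv.swap_apply_left, j1] at hj
        exact Or.inl ⟨rfl, (Option.some_injective _ hj).symm⟩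
      by_cases a2 : j = j'
      · subst a2
        simp [h0] at hj
      · exact Or.inr (by simpa only [Function.comp, Equiv.swap_apply_of_ne_of_ne a1 a2] using hj)
    refine ⟨φ ∘ Equiv.swap l j', ⟨fun j hj => ?_, fun j i' hj => ?_, fun i' => e ▸ h.2.2 i'⟩, ?_⟩
    · rw [Function.comp, Equiv.swap_apply_of_ne_of_ne (fun e : j = l => hj (e ▸ hl))
        fun e : j = j' => hj (e ▸ hj'), h.1 j hj]
    · rw [e]
      rcases e1 j i' hj with ⟨rfl, rfl⟩ | h'
      · exact hi.le
      · exact h.2.1 j i' h'
    · unfold pot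
      rw [e]
      refine Nat.add_lt_add_left (card_lt_card ⟨fun j hj => ?_, fun hc => ?_⟩) _
      · obtain ⟨i', b1, b2⟩ := (mem_filter.mp hj).2
        refine mem_filter.mpr ⟨mem_univ _, i', ?_, e ▸ b2⟩
        rw [Function.comp, Equiv.swap_apply_of_ne_of_ne, b1]
        · rintro rfl
          simp [h0] at b1
        · rintro rfl
          obtain rfl := Option.some_injective _ (j1.symm.trans b1)
          omega
      · obtain ⟨i', b1, -⟩ := (mem_filter.mp (hc (mem_filter.mpr ⟨mem_univ l, i,
          by simp [j1], e ▸ hi⟩))).2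
        simp [h0] at b1

theorem alloc_cap {J Z : Finset I} {a : I → C → ℕ} {c : C → ℕ} (ha : ∀ j i, a j i ≤ c i + 1)
    (hP : ∀ i, (J.filter fun j => c i < a j i).card ≤ 2 * c i) (hZ : Z.card ≤ 1)
    (hs : ∀ j ∈ J, J.card ≤ ∑ i, a j i) (hs' : ∀ j ∈ J, j ∉ Z → J.card + 1 ≤ ∑ i, a j i) :
    ∃ φ, Val J a c φ ∧ ∀ j ∈ J, φ j ≠ none := by
  classical
  obtain ⟨φ, hφ, hmax⟩ := exists_max_image (univ.filter (Val J a c)) (pot a)
    ⟨fun _ => none, mem_filter.mpr ⟨mem_univ _, fun _ _ => rfl, by simp, by simp [load]⟩⟩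
  replace hφ := (mem_filter.mp hφ).2
  refine ⟨φ, hφ, fun j₀ hj₀ h0 => ?_⟩
  let T : C → Prop := fun i => load φ i = c i ∧ ∀ j, φ j = some i → load φ i < a j i
  let L : I → Prop := fun j => j ∈ J ∧ ∃ i, ¬ T i ∧ load φ i < a j i
  have hN : ∑ i, load φ i + 1 ≤ J.card := by
    have := sum_load (φ := φ) (S := J.erase j₀) fun j hj => by
      by_cases e : j = j₀
      · exact e ▸ h0
      · exact hφ.1 j fun h => hj (mem_erase.mpr ⟨e, h⟩)
    have := card_erase_add_one hj₀
    omega
  obtain ⟨σ, s1, s2⟩ := (Fintype.all_card_le_filter_rel_iff_exists_injective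
    (fun j j' => (j = j' ∧ j' ≠ j₀) ∨ (j' = j₀ ∧ L j) ∨
      (j ∈ J ∧ ∃ i, T i ∧ φ j' = some i ∧ c i < a j i))).mp fun S => by
    by_cases hS : j₀ ∈ S → ∃ j ∈ S, L j
    · refine card_le_card fun j hj => mem_filter.mpr ⟨mem_univ _, ?_⟩
      by_cases e : j = j₀
      · obtain ⟨l, l1, l2⟩ := hS (e ▸ hj)
        exact ⟨l, l1, Or.inr (Or.inl ⟨e, l2⟩)⟩
      · exact ⟨j, hj, Or.inl ⟨rfl, e⟩⟩
    push Not at hS
    let U := univ.filter fun i => T i ∧ ∃ j ∈ S ∩ J, c i < a j i
    have h1 : ∀ j ∈ S ∩ J, (if j ∈ Z then 1 else 2) ≤ (U.filter fun i => c i < a j i).card := by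
      intro j hj
      have b1 : ∑ i, a j i ≤ ∑ i, (load φ i + if i ∈ U ∧ c i < a j i then 1 else 0) := by
        refine sum_le_sum fun i _ => ?_
        by_cases b : load φ i < a j i
        · have t : T i := by_contra fun t =>
            hS.2 j (mem_inter.mp hj).1 ⟨(mem_inter.mp hj).2, i, t, b⟩
          rw [if_pos ⟨mem_filter.mpr ⟨mem_univ _, t, j, hj, t.1 ▸ b⟩, t.1 ▸ b⟩, t.1]
          exact ha j i
        · omega
      rw [sum_add_distrib, ← card_filter, ← filter_filter, filter_mem_eq_inter, univ_inter] at b1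
      have b2 := hs j (mem_inter.mp hj).2
      split_ifs with b
      · omega
      · have := hs' j (mem_inter.mp hj).2 b
        omega
    have h2 : ∑ j ∈ S ∩ J, (U.filter fun i => c i < a j i).card ≤ ∑ i ∈ U, 2 * load φ i := by
      simp only [card_filter]
      rw [sum_comm]
      refine sum_le_sum fun i hi => ?_
      rw [← card_filter, (mem_filter.mp hi).2.1.1]
      exact (card_le_card (filter_subset_filter _ inter_subset_right)).trans (hP i)
    have h3 : 2 * (S ∩ J).card ≤ ∑ j ∈ S ∩ J, (if j ∈ Z then 1 else 2) + 1 := by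
      have : ∑ j ∈ S ∩ J, 2 = ∑ j ∈ S ∩ J, ((if j ∈ Z then 1 else 2) + if j ∈ Z then 1 else 0) :=
        sum_congr rfl fun j _ => by split_ifs <;> rfl
      rw [sum_add_distrib, ← card_filter, sum_const, smul_eq_mul] at this
      have := (card_le_card fun j (hj : j ∈ (S ∩ J).filter (· ∈ Z)) => (mem_filter.mp hj).2).trans hZ
      omega
    have h4 := sum_le_sum h1
    rw [← mul_sum] at h2
    have h5 : ∑ i ∈ U, load φ i = (U.biUnion fun i => univ.filter fun j => φ j = some i).card := by
      rw [card_biUnion]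
      · rfl
      · intro i _ i' _ hi
        exact disjoint_filter.mpr fun j _ h1 h2 => hi (Option.some_injective _ (h1.symm.trans h2))
    have h6 := card_inter_add_card_sdiff S J
    refine le_trans ?_ (card_le_card (s := (U.biUnion fun i => univ.filter fun j => φ j = some i) ∪
      (S \ J)) fun j hj => mem_filter.mpr ⟨mem_univ _, ?_⟩)
    · rw [card_union_of_disjoint]
      · omega
      · refine disjoint_left.mpr fun j b1 b2 => ?_
        obtain ⟨i, -, hi⟩ := mem_biUnion.mp b1
        have := (mem_filter.mp hi).2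
        simp [hφ.1 j (mem_sdiff.mp b2).2] at this
    · rcases mem_union.mp hj with b | b
      · obtain ⟨i, b1, b2⟩ := mem_biUnion.mp b
        obtain ⟨b3, l, b4, b5⟩ := (mem_filter.mp b1).2
        exact ⟨l, (mem_inter.mp b4).1, Or.inr (Or.inr ⟨(mem_inter.mp b4).2, i, b3,
          (mem_filter.mp b2).2, b5⟩)⟩
      · exact ⟨j, (mem_sdiff.mp b).1, Or.inl ⟨rfl, fun e => (mem_sdiff.mp b).2 (e ▸ hj₀)⟩⟩
  have hb := Finite.injective_iff_bijective.mp s1
  have e := load_comp φ hb
  have hv : Val J a c (φ ∘ σ) := by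
    refine ⟨fun j hj => ?_, fun j i hj => ?_, fun i => e ▸ hφ.2.2 i⟩
    · rcases s2 j with b | b | b
      · rw [Function.comp, ← b.1, hφ.1 j hj]
      · exact absurd b.2.1 hj
      · exact absurd b.1 hj
    · rw [e]
      rw [Function.comp] at hj
      rcases s2 j with b | b | ⟨-, i', b1, b2, b3⟩
      · exact hφ.2.1 j i (b.1 ▸ hj)
      · simp [b.1, h0] at hj
      · obtain rfl := Option.some_injective _ (hj.symm.trans b2)
        exact (hφ.2.2 i).trans b3.le
  have hp : pot a φ ≤ pot a (φ ∘ σ) := by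
    unfold pot
    rw [e]
    refine Nat.add_le_add_left ?_ _
    rw [← card_bijective (s := univ.filter fun j => σ j ∈ strict a φ) σ hb fun j => by simp]
    refine card_le_card fun j hj => ?_
    obtain ⟨i, b1, b2⟩ := (mem_filter.mp (mem_filter.mp hj).2).2
    refine mem_filter.mpr ⟨mem_univ _, i, b1, ?_⟩
    rw [e]
    rcases s2 j with b | b | ⟨-, i', b3, b4, b5⟩
    · exact b.1 ▸ b2
    · simp [b.1, h0] at b1
    · obtain rfl := Option.some_injective _ (b1.symm.trans b4)
      exact b3.1 ▸ b5
  obtain ⟨l, hl⟩ := hb.2 j₀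
  obtain ⟨l1, i, l2, l3⟩ : L l := by
    rcases s2 l with b | b | ⟨-, i', -, b4, -⟩
    · exact absurd hl b.2
    · exact b.2
    · simp [hl, h0] at b4
  obtain ⟨φ', p1, p2⟩ := improve hv l1 (i := i) (by rw [Function.comp, hl, h0]) (e ▸ l3) (by
    rw [e]
    rintro ⟨t1, t2⟩
    refine l2 ⟨t1, fun j hj => ?_⟩
    obtain ⟨j', rfl⟩ := hb.2 j
    rcases s2 j' with b | b | ⟨-, i', b3, b4, -⟩
    · exact b.1 ▸ t2 j' hj
    · simp [b.1, h0] at hj
    · obtain rfl := Option.some_injective _ (hj.symm.trans b4)
      exact absurd b3 l2)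
  have := hmax φ' (mem_filter.mpr ⟨mem_univ _, p1⟩)
  omega

theorem alloc (c : C → ℕ) (col : I → C → Prop) {Z : Finset I} (hZ : Z.card ≤ 1) (n : ℕ) :
    ∀ (J : Finset I) (a : I → C → ℕ), J.card = n → (∀ j i, a j i ≤ c i + 1) →
      (∀ j ∈ J, n ≤ ∑ i, a j i) → (∀ j ∈ J, j ∉ Z → n + 1 ≤ ∑ i, a j i) →
      ∃ φ : I → Option C, (∀ j, φ j = none ↔ j ∉ J) ∧ (∀ j i, φ j = some i → load φ i ≤ a j i) ∧
        ∀ i, load φ i ≤ c i ∨ ∀ j j', φ j = some i → φ j' = some i → (col j i ↔ col j' i) := by
  classical
  induction n using Nat.strong_induction_on with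
  | h n ih =>
  intro J a hJ ha hs hs'
  by_cases h : ∃ i, ∃ b : Prop, c i + 1 ≤ (J.filter fun j => c i < a j i ∧ (col j i ↔ b)).card
  · obtain ⟨i, b, h⟩ := h
    obtain ⟨S, hS, hc⟩ := exists_subset_card_eq h
    have hSJ : S ⊆ J := hS.trans (filter_subset _ _)
    have h1 := card_sdiff_add_card_eq_card hSJ
    have h2 : ∀ j, ∑ i', a j i' ≤ ∑ i', (if i' = i then 0 else a j i') + (c i + 1) := fun j => by
      have : ∑ i', a j i' =
          ∑ i', ((if i' = i then 0 else a j i') + if i' = i then a j i' else 0) :=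
        sum_congr rfl fun i' _ => by split_ifs <;> simp
      rw [this, sum_add_distrib, sum_ite_eq' univ i (a j), if_pos (mem_univ _)]
      exact Nat.add_le_add_left (ha j i) _
    obtain ⟨φ, p1, p2, p3⟩ := ih _ (by omega) (J \ S) (fun j i' => if i' = i then 0 else a j i') rfl
      (fun j i' => by split_ifs <;> simp [ha])
      (fun j hj => by have := hs j (mem_sdiff.mp hj).1; have := h2 j; omega)
      (fun j hj hz => by have := hs' j (mem_sdiff.mp hj).1 hz; have := h2 j; omega)
    have q1 : ∀ j, φ j ≠ some i := fun j hj => by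
      have := p2 j i hj
      rw [if_pos rfl] at this
      exact absurd (card_pos.mpr ⟨j, mem_filter.mpr ⟨mem_univ _, hj⟩⟩) (not_lt.mpr this)
    have q2 : ∀ j, (if j ∈ S then some i else φ j) = some i ↔ j ∈ S := fun j => by
      by_cases e : j ∈ S <;> simp [e, q1]
    have q3 : ∀ i', i' ≠ i → ∀ j, (if j ∈ S then some i else φ j) = some i' ↔ φ j = some i' :=
      fun i' hi j => by
        by_cases e : j ∈ S
        · simp [e, hi.symm, (p1 j).mpr fun h => (mem_sdiff.mp h).2 e]
        · simp [e]
    have q4 : load (fun j => if j ∈ S then some i else φ j) i = c i + 1 := by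
      simp only [load, q2, filter_mem_eq_inter, univ_inter, hc]
    have q5 : ∀ i', i' ≠ i → load (fun j => if j ∈ S then some i else φ j) i' = load φ i' :=
      fun i' hi => by simp only [load, q3 i' hi]
    refine ⟨fun j => if j ∈ S then some i else φ j, fun j => ?_, fun j i' hj => ?_, fun i' => ?_⟩
    · by_cases e : j ∈ S
      · simp [e, hSJ e]
      · simp [e, p1]
    · by_cases e : i' = i
      · subst e
        rw [q4]
        exact (mem_filter.mp (hS ((q2 j).mp hj))).2.1
      · rw [q5 i' e]
        simpa only [if_neg e] using p2 j i' ((q3 i' e j).mp hj)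
    · by_cases e : i' = i
      · subst e
        exact Or.inr fun j j' a1 a2 => (mem_filter.mp (hS ((q2 j).mp a1))).2.2.trans
          (mem_filter.mp (hS ((q2 j').mp a2))).2.2.symm
      · rw [q5 i' e]
        exact (p3 i').imp id fun h j j' a1 a2 => h j j' ((q3 i' e j).mp a1) ((q3 i' e j').mp a2)
  · push Not at h
    subst hJ
    obtain ⟨φ, p1, p2⟩ := alloc_cap (J := J) ha (fun i => by
      have key : ∀ s t u : Finset I, s.card < c i + 1 → t.card < c i + 1 → u ⊆ s ∪ t →
          u.card ≤ 2 * c i := fun s t u h1 h2 h3 => by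
        have := (card_le_card h3).trans (card_union_le _ _)
        omega
      refine key _ _ _ (h i True) (h i False) fun j hj => ?_
      simp only [mem_union, mem_filter] at hj ⊢
      tauto) hZ hs hs'
    exact ⟨φ, fun j => ⟨fun e hj => p2 j hj e, p1.1 j⟩, p1.2.1, fun i => Or.inl (p1.2.2 i)⟩

end Pool.Agent.Lib.MP_4a6af7_co.Deg
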