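import Mathlib
import Pool.Agent.Lib.MP_4a6af7_co.Cyc.Main
import Pool.Agent.Lib.MP_4a6af7_co.Lin.Main
import Pool.Agent.Lib.MP_4a6af7_co.Lin.Sharp
import Pool.Agent.Lib.MP_4a6af7_co.Deg.Alloc

/-! Rainbow matchings in disjoint unions of cycles and a forest. -/

set_option autoImplicit false

namespace Pool.Agent.Lib.MP_4a6af7_co.Deg

open Finset Pool.Agent.Lib.MP_4a6af7_co.Lin Pool.Agent.Lib.MP_4a6af7_co.Cyc

variable {V : Type} [DecidableEq V]

/-- Every nonempty subset has a leaf. -/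
def Forest (F : Finset (Sym2 V)) : Prop := ∀ S ⊆ F, S.Nonempty → Leaf S

/-- Minimal nonempty sets without a leaf. -/
def Circ (F : Finset (Sym2 V)) : Prop := F.Nonempty ∧ ¬ Leaf F ∧ ∀ c ∈ F, Forest (F.erase c)

/-- A full rainbow matching. -/
def RB {K : Type} (B : K → Finset (Sym2 V)) : Prop :=
  ∃ e : K → Sym2 V, (∀ k, e k ∈ B k) ∧ ∀ k k', k ≠ k' → ∀ v, v ∈ e k → v ∉ e k'

omit [DecidableEq V] in
theorem other {F : Finset (Sym2 V)} (h : ¬ Leaf F) {e : Sym2 V} (he : e ∈ F) {v : V} (hv : v ∈ e) :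
    ∃ f ∈ F, v ∈ f ∧ f ≠ e := by
  obtain ⟨w, rfl⟩ := Sym2.mem_iff_exists.mp hv
  by_contra hc
  push Not at hc
  exact h ⟨v, w, he, hc⟩

omit [DecidableEq V] in
open Classical in
theorem rb_forest {K : Type} [Fintype K] {F : Finset (Sym2 V)} (hF : Forest F)
    (B : K → Finset (Sym2 V)) (h1 : ∀ k, B k ⊆ F) (h2 : ∀ k, IsMat id (B k))
    (h3 : ∀ k, Fintype.card K ≤ (B k).card) : RB B := by
  have key : ∀ (n : ℕ) (T : Finset (Fin n × Sym2 V)), (∀ x ∈ T, x.2 ∈ F) → Big Prod.snd n T →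
      2 * n ≤ T.card → Ac n (PK (Big Prod.snd n) T ∅) := by
    intro n T t1 t2 t3
    have := forest_ac (π := Prod.snd) (N := Big Prod.snd n)
      (fun a b h ⟨M, m1, m2⟩ => ⟨M, m1.trans h, m2⟩) _ T ∅ T n le_rfl Subset.rfl
      (by simp) (empty_subset _) (fun a _ h => by rw [inter_eq_left.mpr h]) (fun S hS => by
        refine hF S fun x hx => ?_
        obtain ⟨y, hy, rfl⟩ := mem_image.mp (hS hx)
        exact t1 y hy) t2
    exact this.le (by rw [sdiff_empty]; omega)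
  obtain ⟨e, e1, e2⟩ := rainbow_of_ac (fun i => B ((Fintype.equivFin K).symm i)) (fun i => h2 _)
    (fun i => h3 _) fun T t1 t2 t3 => by
      convert key _ T (fun x hx => h1 _ (t1 x hx)) t2 t3
  exact ⟨fun k => e (Fintype.equivFin K k), fun k => by simpa using e1 (Fintype.equivFin K k),
    fun k k' h => e2 _ _ fun e => h ((Fintype.equivFin K).injective e)⟩

theorem rb_circ {K : Type} [Fintype K] {F : Finset (Sym2 V)} (hF : Circ F)
    (B : K → Finset (Sym2 V)) (h1 : ∀ k, B k ⊆ F) (h2 : ∀ k, IsMat id (B k))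
    (h3 : ∀ k, Fintype.card K ≤ (B k).card) (h4 : 2 * Fintype.card K + 1 ≤ F.card) : RB B := by
  classical
  rcases isEmpty_or_nonempty K with h | h
  · exact ⟨isEmptyElim, isEmptyElim, isEmptyElim⟩
  choose B' b1 b2 using fun k => exists_subset_card_eq (h3 k)
  have hu : (univ : Finset F).image Subtype.val = F := by
    ext e
    simp
  obtain ⟨e, e1, e2⟩ := rainbow_cycle (π := fun p : F => p.1) (A := fun k => (B' k).subtype (· ∈ F))
    Subtype.val_injective (g := F.card - 2 * Fintype.card K) (by omega)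
    (by rw [Fintype.card_coe]; omega)
    (fun k a ha b hb hab => h2 k _ (b1 k (mem_subtype.mp ha)) _ (b1 k (mem_subtype.mp hb))
      fun e => hab (Subtype.ext e))
    (fun k => by rw [card_subtype, filter_true_of_mem fun x hx => h1 k (b1 k hx), b2])
    (by rw [hu]; exact hF.2.2) (fun p => by
      obtain ⟨f, f1, f2, f3⟩ := other hF.2.1 p.2 (Sym2.out_fst_mem p.1)
      exact ⟨⟨f, f1⟩, fun e => f3 (congrArg Subtype.val e).symm, _, Sym2.out_fst_mem p.1, f2⟩)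
  exact ⟨fun k => e k, fun k => b1 k (mem_subtype.mp (e1 k)), e2⟩

theorem vs_le {F : Finset (Sym2 V)} (h : ¬ Leaf F) : (vs id F).card ≤ F.card := by
  have := card_mul_le_card_mul (s := vs id F) (t := F) (fun v e => v ∈ e) (m := 2) (n := 2)
    (fun v hv => by
      obtain ⟨e, e1, e2⟩ := mem_vs.mp hv
      obtain ⟨f, f1, f2, f3⟩ := other h e1 e2
      exact one_lt_card.mpr ⟨f, (mem_bipartiteAbove _).mpr ⟨f1, f2⟩, e,
        (mem_bipartiteAbove _).mpr ⟨e1, e2⟩, f3⟩)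
    (fun e _ => by
      refine (card_le_card (t := e.toFinset) fun v hv =>
        Sym2.mem_toFinset.mpr ((mem_bipartiteBelow _).mp hv).2).trans ?_
      rw [Sym2.card_toFinset]
      split_ifs <;> omega)
  omega

theorem vs_mono {B F : Finset (Sym2 V)} (h : B ⊆ F) : vs id B ⊆ vs id F := fun _ hv =>
  let ⟨e, e1, e2⟩ := mem_vs.mp hv; mem_vs.mpr ⟨e, h e1, e2⟩

theorem pm_eq {F B B' : Finset (Sym2 V)} (hF : Circ F) (hd : ∀ e ∈ F, ¬ e.IsDiag) (h1 : B ⊆ F)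
    (h1' : B' ⊆ F) (h2 : IsMat id B) (h2' : IsMat id B') (h3 : F.card ≤ 2 * B.card)
    (h3' : F.card ≤ 2 * B'.card) {e₀ : Sym2 V} (he : e₀ ∈ F) (h : e₀ ∈ B ↔ e₀ ∈ B') : B = B' := by
  have key : ∀ {B : Finset (Sym2 V)}, B ⊆ F → IsMat id B → F.card ≤ 2 * B.card →
      ∀ e ∈ F, ∀ v ∈ e, ∃ f ∈ B, v ∈ f := fun {B} a1 a2 a3 e a4 v a5 => by
    have := eq_of_subset_of_card_le (vs_mono a1)
      (((vs_le hF.2.1).trans a3).trans (card_vs a2 fun e he => hd e (a1 he)).ge)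
    exact mem_vs.mp (this ▸ mem_vs.mpr ⟨e, a4, a5⟩)
  by_contra hne
  obtain ⟨u, v, l1, l2⟩ := hF.2.2 e₀ he ((B \ B') ∪ (B' \ B)) (fun x hx => by
    simp only [mem_union, mem_sdiff] at hx
    exact mem_erase.mpr ⟨by rintro rfl; tauto, hx.elim (h1 ·.1) (h1' ·.1)⟩) (by
    rw [nonempty_iff_ne_empty, Ne, union_eq_empty, sdiff_eq_empty_iff_subset,
      sdiff_eq_empty_iff_subset]
    exact fun h => hne (Subset.antisymm h.1 h.2))
  simp only [mem_union, mem_sdiff] at l1 l2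
  rcases l1 with l1 | l1
  · obtain ⟨f, f1, f2⟩ := key h1' h2' h3' _ (h1 l1.1) u (Sym2.mem_mk_left _ _)
    have f3 : f ≠ s(u, v) := fun e => l1.2 (e ▸ f1)
    exact f3 (l2 f (Or.inr ⟨f1, fun hf => h2 f hf _ l1.1 f3 u f2 (Sym2.mem_mk_left _ _)⟩) f2)
  · obtain ⟨f, f1, f2⟩ := key h1 h2 h3 _ (h1' l1.1) u (Sym2.mem_mk_left _ _)
    have f3 : f ≠ s(u, v) := fun e => l1.2 (e ▸ f1)
    exact f3 (l2 f (Or.inl ⟨f1, fun hf => h2' f hf _ l1.1 f3 u f2 (Sym2.mem_mk_left _ _)⟩) f2)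

theorem decomp (E : Finset (Sym2 V)) :
    (∀ v, ∀ e ∈ E, ∀ f ∈ E, ∀ g ∈ E, v ∈ e → v ∈ f → v ∈ g → e = f ∨ e = g ∨ f = g) →
    ∃ 𝒞 : Finset (Finset (Sym2 V)), (∀ F ∈ 𝒞, F ⊆ E ∧ (Forest F ∨ Circ F)) ∧
      (∀ e ∈ E, ∃ F ∈ 𝒞, e ∈ F) ∧
      ∀ F ∈ 𝒞, ∀ F' ∈ 𝒞, F ≠ F' → ∀ e ∈ F, ∀ f ∈ F', ∀ v, v ∈ e → v ∉ f := by
  classical
  induction E using Finset.strongInduction with
  | H E ih =>
  intro h
  by_cases hE : Forest E
  · exact ⟨{E}, by simp [hE], by simp, by simp⟩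
  obtain ⟨S, hS, hmin⟩ := exists_min_image (E.powerset.filter fun S => S.Nonempty ∧ ¬ Leaf S) card
    (by
      unfold Forest at hE
      push Not at hE
      obtain ⟨S, s1, s2⟩ := hE
      exact ⟨S, mem_filter.mpr ⟨mem_powerset.mpr s1, s2⟩⟩)
  obtain ⟨s1, s2, s3⟩ := mem_filter.mp hS
  rw [mem_powerset] at s1
  have hC : Circ S := ⟨s2, s3, fun c hc S' a1 a2 => by_contra fun a3 => by
    have := hmin S' (mem_filter.mpr ⟨mem_powerset.mpr
      (a1.trans ((erase_subset _ _).trans s1)), a2, a3⟩)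
    have := card_le_card a1
    have := card_erase_add_one hc
    omega⟩
  obtain ⟨𝒞, c1, c2, c3⟩ := ih (E \ S) (sdiff_ssubset s1 s2) fun v e a1 f a2 g a3 =>
    h v e (sdiff_subset a1) f (sdiff_subset a2) g (sdiff_subset a3)
  have key : ∀ e ∈ S, ∀ f ∈ E \ S, ∀ v, v ∈ e → v ∉ f := fun e a1 f a2 v a3 a4 => by
    obtain ⟨g, g1, g2, g3⟩ := other s3 a1 a3
    rcases h v e (s1 a1) f (sdiff_subset a2) g (s1 g1) a3 a4 g2 with b | b | b
    · exact (mem_sdiff.mp a2).2 (b ▸ a1)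
    · exact g3 b.symm
    · exact (mem_sdiff.mp a2).2 (b ▸ g1)
  refine ⟨insert S 𝒞, fun F hF => ?_, fun e he => ?_, fun F a1 F' a2 a3 e a4 f a5 v a6 a7 => ?_⟩
  · rcases mem_insert.mp hF with rfl | hF
    · exact ⟨s1, Or.inr hC⟩
    · exact ⟨(c1 F hF).1.trans sdiff_subset, (c1 F hF).2⟩
  · by_cases b : e ∈ S
    · exact ⟨S, mem_insert_self _ _, b⟩
    · obtain ⟨F, f1, f2⟩ := c2 e (mem_sdiff.mpr ⟨he, b⟩)
      exact ⟨F, mem_insert_of_mem f1, f2⟩
  · rcases mem_insert.mp a1 with b1 | b1 <;> rcases mem_insert.mp a2 with b2 | b2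
    · exact a3 (b1.trans b2.symm)
    · exact key e (b1 ▸ a4) f ((c1 _ b2).1 a5) v a6 a7
    · exact key f (b2 ▸ a5) e ((c1 _ b1).1 a4) v a7 a6
    · exact c3 F b1 F' b2 a3 e a4 f a5 v a6 a7

theorem rb_cols {I : Type} [Fintype I] (A : I → Finset (Sym2 V)) (hM : ∀ j, IsMat id (A j))
    (hd : ∀ j, ∀ e ∈ A j, ¬ e.IsDiag) {𝒞 : Finset (Finset (Sym2 V))}
    (c1 : ∀ F ∈ 𝒞, (∀ e ∈ F, ¬ e.IsDiag) ∧ (Forest F ∨ Circ F))
    (c2 : ∀ j, ∀ e ∈ A j, ∃ F ∈ 𝒞, e ∈ F)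
    (c3 : ∀ F ∈ 𝒞, ∀ F' ∈ 𝒞, F ≠ F' → ∀ e ∈ F, ∀ f ∈ F', ∀ v, v ∈ e → v ∉ f)
    {Z : Finset I} (hZ : Z.card ≤ 1) (hs : ∀ j, Fintype.card I ≤ (A j).card)
    (hs' : ∀ j, j ∉ Z → Fintype.card I + 1 ≤ (A j).card) : RB A := by
  classical
  have hsum : ∀ j, (A j).card ≤ ∑ F : 𝒞, (A j ∩ F.1).card := fun j =>
    (card_le_card (t := (univ : Finset 𝒞).biUnion fun F => A j ∩ F.1) fun e he =>
      let ⟨F, f1, f2⟩ := c2 j e he
      mem_biUnion.mpr ⟨⟨F, f1⟩, mem_univ _, mem_inter.mpr ⟨he, f2⟩⟩).trans card_biUnion_le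
  have hm : ∀ j F, IsMat id (A j ∩ F) := fun j F => (hM j).mono inter_subset_left
  have hc : ∀ j F, Circ F → 2 * (A j ∩ F).card ≤ F.card := fun j F h =>
    (card_vs (hm j F) fun e he => hd j e (mem_inter.mp he).1).ge.trans
      ((card_le_card (vs_mono inter_subset_right)).trans (vs_le h.2.1))
  obtain ⟨φ, p1, p2, p3⟩ := alloc (I := I) (C := 𝒞)
    (fun F => if Circ F.1 then (F.1.card - 1) / 2 else F.1.card)
    (fun j F => ∃ h : F.1.Nonempty, h.choose ∈ A j) hZ _ univ (fun j F => (A j ∩ F.1).card)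
    card_univ (fun j F => by
      split_ifs with h
      · have := hc j F h
        omega
      · exact (card_le_card inter_subset_right).trans (Nat.le_succ _))
    (fun j _ => (hs j).trans (hsum j)) fun j _ hj => (hs' j hj).trans (hsum j)
  have hrb : ∀ F : 𝒞, RB fun k : {j // φ j = some F} => A k.1 ∩ F.1 := fun F => by
    have h0 : ∀ k : {j // φ j = some F},
        Fintype.card {j // φ j = some F} ≤ (A k.1 ∩ F.1).card := fun k => by
      rw [Fintype.card_subtype]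
      exact p2 _ _ k.2
    by_cases h : Circ F.1
    swap
    · exact rb_forest ((c1 F.1 F.2).2.resolve_right h) _ (fun _ => inter_subset_right)
        (fun _ => hm _ _) h0
    have h1 := card_pos.mpr h.1
    by_cases h2 : 2 * Fintype.card {j // φ j = some F} + 1 ≤ F.1.card
    · exact rb_circ h _ (fun _ => inter_subset_right) (fun _ => hm _ _) h0 h2
    have h3 := (p3 F).resolve_left (by
      rw [if_pos h]
      rw [Fintype.card_subtype] at h2
      unfold load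
      omega)
    obtain ⟨k₀⟩ : Nonempty {j // φ j = some F} := Fintype.card_pos_iff.mp (by omega)
    have h4 : ∀ k : {j // φ j = some F}, A k.1 ∩ F.1 = A k₀.1 ∩ F.1 := fun k =>
      pm_eq h (c1 F.1 F.2).1 inter_subset_right inter_subset_right (hm _ _) (hm _ _)
        (by have := h0 k; omega) (by have := h0 k₀; omega) h.1.choose_spec (by
          have := h3 _ _ k.2 k₀.2
          simp only [mem_inter, h.1.choose_spec, and_true]
          exact ⟨fun a => (this.mp ⟨h.1, a⟩).2, fun a => (this.mpr ⟨h.1, a⟩).2⟩)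
    obtain ⟨e⟩ := Function.Embedding.nonempty_of_card_le
      ((h0 k₀).trans (Fintype.card_coe _).ge)
    exact ⟨fun k => e k, fun k => by
      show _ ∈ A k.1 ∩ F.1
      rw [h4 k]
      exact (e k).2, fun k k' hk =>
      hm _ _ _ (e k).2 _ (e k').2 fun a => hk (e.injective (Subtype.ext a))⟩
  choose e e1 e2 using hrb
  choose ψ hψ using fun j => Option.ne_none_iff_exists'.mp fun h => (p1 j).mp h (mem_univ j)
  refine ⟨fun j => e (ψ j) ⟨j, hψ j⟩, fun j => (mem_inter.mp (e1 _ _)).1, fun j j' h => ?_⟩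
  by_cases b : ψ j = ψ j'
  · have : ∀ F (h' : φ j' = some F), ψ j = F → ∀ v, v ∈ e (ψ j) ⟨j, hψ j⟩ → v ∉ e F ⟨j', h'⟩ := by
      rintro F h' rfl
      exact e2 _ _ _ fun a => h (congrArg Subtype.val a)
    exact this _ _ b
  · exact c3 _ (ψ j).2 _ (ψ j').2 (fun a => b (Subtype.ext a)) _ (mem_inter.mp (e1 _ _)).2 _
      (mem_inter.mp (e1 _ _)).2

end Pool.Agent.Lib.MP_4a6af7_co.Deg
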